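import Mathlib

/-!
Algebraic core: a configuration of null lines forces two opposite sides of a null
quadrilateral to be parallel.
-/

namespace Pool.Agent.Work.MP_446ff5_lc

section Core

variable {F : Type*} [Field F] [CharZero F] {V : Type*} [AddCommGroup V] [Module F V]
  (B : V →ₗ[F] V →ₗ[F] F)

/-- Data of the centre of a grid. -/
lemma grid_center (hs : ∀ u v, B u v = B v u) (κ κ' k : V)
    (hκ : B κ κ = 0) (hκ' : B κ' κ' = 0) (hk : B k k = 0) (hC : B κ κ' ≠ 0) :
    ∃ a b : F, ∃ v : V, v = (1 / 2 : F) • k + a • κ + b • κ' ∧ B v κ = 0 ∧ B v k = 0 ∧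
      ∀ σ τ : F, B (k + τ • κ' - σ • κ) (k + τ • κ' - σ • κ) = 0 →
        B (v - σ • κ) (k + τ • κ' - σ • κ) = 0 := by
  refine ⟨(1 / 2) * (B k κ' / B κ κ'), -((1 / 2) * (B k κ / B κ κ')), _, rfl, ?_, ?_, ?_⟩
  · simp only [map_add, map_smul, LinearMap.add_apply, LinearMap.smul_apply, smul_eq_mul]
    rw [hκ, hs κ' κ]
    field_simp
    ring
  · simp only [map_add, map_smul, LinearMap.add_apply, LinearMap.smul_apply, smul_eq_mul]
    rw [hk, hs κ k, hs κ' k]
    field_simp
    ring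
  · intro σ τ h
    simp only [map_add, map_sub, map_smul, LinearMap.add_apply, LinearMap.sub_apply,
      LinearMap.smul_apply, smul_eq_mul] at h ⊢
    rw [hκ, hκ', hk, hs κ k, hs κ' k, hs κ' κ] at h ⊢
    have h' : τ * B k κ' - σ * B k κ - σ * τ * B κ κ' = 0 := by
      have : (2 : F) * (τ * B k κ' - σ * B k κ - σ * τ * B κ κ') = 0 := by
        linear_combination h
      rcases mul_eq_zero.1 this with h2 | h2
      · exact absurd h2 two_ne_zero
      · exact h2
    field_simp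
    linear_combination 2 * h' * B κ κ'

/-- `a` and `b` are distinct and differ by a null vector. -/
def Lam (a b : V) : Prop := B (a - b) (a - b) = 0 ∧ a ≠ b

lemma lam_symm {a b : V} (h : Lam B a b) : Lam B b a := by
  refine ⟨?_, h.2.symm⟩
  have h1 := h.1
  have e : b - a = -(a - b) := by abel
  rw [e, map_neg, LinearMap.map_neg₂, neg_neg]
  exact h1

/-- Three pairwise related points are collinear. -/
lemma collinear (hs : ∀ u v, B u v = B v u)
    (hN : ∀ u v, B u u = 0 → B v v = 0 → B u v = 0 → v ≠ 0 → ∃ a : F, u = a • v)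
    {a b c : V} (h1 : Lam B a b) (h2 : Lam B a c) (h3 : Lam B b c) :
    ∃ σ : F, c = a + σ • (b - a) ∧ σ ≠ 0 ∧ σ ≠ 1 := by
  have e1 : B (c - a) (c - a) = 0 := (lam_symm B h2).1
  have e2 : B (b - a) (b - a) = 0 := (lam_symm B h1).1
  have e3 : B (c - a) (b - a) = 0 := by
    have h := h3.1
    have : b - c = (b - a) - (c - a) := by abel
    rw [this] at h
    simp only [map_sub, LinearMap.sub_apply] at h e1 e2 ⊢
    have h' := hs (c - a) (b - a)
    simp only [map_sub, LinearMap.sub_apply] at h'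
    have : (2 : F) * (B c b - B a b - (B c a - B a a)) = 0 := by
      linear_combination e2 + e1 - h + h'
    rcases mul_eq_zero.1 this with h2 | h2
    · exact absurd h2 two_ne_zero
    · exact h2
  obtain ⟨σ, hσ⟩ := hN _ _ e1 e2 e3 (sub_ne_zero.2 h1.2.symm)
  refine ⟨σ, by rw [← hσ]; abel, ?_, ?_⟩
  · rintro rfl
    rw [zero_smul, sub_eq_zero] at hσ
    exact h2.2 hσ.symm
  · rintro rfl
    rw [one_smul] at hσ
    exact h3.2 (by rw [sub_left_inj] at hσ; exact hσ.symm)

theorem parallel_core (hs : ∀ u v, B u v = B v u)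
    (hN : ∀ u v, B u u = 0 → B v v = 0 → B u v = 0 → v ≠ 0 → ∃ a : F, u = a • v)
    (x t1 t2 y p q s g w1 w2 w3 z1 z2 z3 : V)
    (hxt2 : Lam B x t2) (hxp : Lam B x p) (ht2p : Lam B t2 p) (hxs : Lam B x s)
    (ht2s : Lam B t2 s)
    (ht1y : Lam B t1 y) (ht1q : Lam B t1 q) (hyq : Lam B y q) (ht1g : Lam B t1 g)
    (hyg : Lam B y g)
    (hxt1 : Lam B x t1) (ht2y : Lam B t2 y) (hpq : Lam B p q) (hsg : Lam B s g)
    (ht12 : B (t1 - t2) (t1 - t2) ≠ 0)
    (hw12 : Lam B w1 w2) (hw13 : Lam B w1 w3) (hw23 : Lam B w2 w3)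
    (hw1s : Lam B w1 s) (hw2s : Lam B w2 s)
    (hz12 : Lam B z1 z2) (hz13 : Lam B z1 z3) (hz23 : Lam B z2 z3)
    (hwz1 : Lam B w1 z1) (hwz2 : Lam B w2 z2) (hwz3 : Lam B w3 z3)
    (ow1 : B (w1 - x) (t1 - x) = 0) (oz1 : B (z1 - x) (t1 - x) = 0)
    (ow2 : B (w2 - t2) (y - t2) = 0) (oz2 : B (z2 - t2) (y - t2) = 0)
    (ow3 : B (w3 - p) (q - p) = 0) (oz3 : B (z3 - p) (q - p) = 0)
    (nw1 : B (w1 - x) (w1 - x) ≠ 0) (nw1g : B (w1 - g) (w1 - g) ≠ 0) :
    B (t2 - x) (y - t1) = 0 := by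
  by_contra hC
  -- vectors of the first grid
  obtain ⟨κ, hκdef⟩ : ∃ κ, κ = t2 - x := ⟨_, rfl⟩
  obtain ⟨κ', hκ'def⟩ : ∃ κ', κ' = y - t1 := ⟨_, rfl⟩
  obtain ⟨k1, hk1def⟩ : ∃ k1, k1 = t1 - x := ⟨_, rfl⟩
  have Et2 : t2 = x + κ := by rw [hκdef]; abel
  have Et1 : t1 = x + k1 := by rw [hk1def]; abel
  have Ey : y = x + k1 + κ' := by rw [hκ'def, hk1def]; abel
  obtain ⟨σ, Ep, hσ0, hσ1⟩ := collinear B hs hN hxt2 hxp ht2p
  obtain ⟨τ, Eq', hτ0, hτ1⟩ := collinear B hs hN ht1y ht1q hyq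
  obtain ⟨σs, Es, hσs0, hσs1⟩ := collinear B hs hN hxt2 hxs ht2s
  obtain ⟨τg, Eg, hτg0, hτg1⟩ := collinear B hs hN ht1y ht1g hyg
  rw [← hκdef] at Ep Es hC
  rw [← hκ'def] at Eq' Eg hC
  -- vectors of the second grid
  obtain ⟨γ, hγdef⟩ : ∃ γ, γ = w2 - w1 := ⟨_, rfl⟩
  obtain ⟨δ, hδdef⟩ : ∃ δ, δ = z2 - z1 := ⟨_, rfl⟩
  obtain ⟨m1, hm1def⟩ : ∃ m1, m1 = z1 - w1 := ⟨_, rfl⟩
  obtain ⟨b, Ew3, hb0, hb1⟩ := collinear B hs hN hw12 hw13 hw23
  obtain ⟨d, Ez3, hd0, hd1⟩ := collinear B hs hN hz12 hz13 hz23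
  obtain ⟨c, Esw, hc0, hc1⟩ := collinear B hs hN hw12 hw1s hw2s
  rw [← hγdef] at Ew3 Esw
  rw [← hδdef] at Ez3
  have Ew2 : w2 = w1 + γ := by rw [hγdef]; abel
  have Ez1 : z1 = w1 + m1 := by rw [hm1def]; abel
  have Ez2 : z2 = w1 + m1 + δ := by rw [hδdef, hm1def]; abel
  -- basic scalar facts
  have nκ : B κ κ = 0 := by rw [hκdef]; exact (lam_symm B hxt2).1
  have nκ' : B κ' κ' = 0 := by rw [hκ'def]; exact (lam_symm B ht1y).1
  have nk1 : B k1 k1 = 0 := by rw [hk1def]; exact (lam_symm B hxt1).1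
  have nγ : B γ γ = 0 := by rw [hγdef]; exact (lam_symm B hw12).1
  have nδ : B δ δ = 0 := by rw [hδdef]; exact (lam_symm B hz12).1
  have nm1 : B m1 m1 = 0 := by rw [hm1def]; exact (lam_symm B hwz1).1
  have k10 : k1 ≠ 0 := by rw [hk1def]; exact sub_ne_zero.2 hxt1.2.symm
  have κ0 : κ ≠ 0 := by rw [hκdef]; exact sub_ne_zero.2 hxt2.2.symm
  have γ0 : γ ≠ 0 := by rw [hγdef]; exact sub_ne_zero.2 hw12.2.symm
  -- the rungs
  obtain ⟨k2, hk2def⟩ : ∃ k2, k2 = k1 + (1 : F) • κ' - (1 : F) • κ := ⟨_, rfl⟩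
  obtain ⟨k3, hk3def⟩ : ∃ k3, k3 = k1 + τ • κ' - σ • κ := ⟨_, rfl⟩
  obtain ⟨h, hhdef⟩ : ∃ h, h = k1 + τg • κ' - σs • κ := ⟨_, rfl⟩
  have Ek2 : y - t2 = k2 := by rw [hk2def, Ey, Et2]; module
  have Ek3 : q - p = k3 := by rw [hk3def, Eq', Ep, Et1]; module
  have Eh : g - s = h := by rw [hhdef, Eg, Es, Et1]; module
  have nk2 : B k2 k2 = 0 := by rw [← Ek2]; exact (lam_symm B ht2y).1
  have nk3 : B k3 k3 = 0 := by rw [← Ek3]; exact (lam_symm B hpq).1
  have nh : B h h = 0 := by rw [← Eh]; exact (lam_symm B hsg).1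
  have k20 : k2 ≠ 0 := by rw [← Ek2]; exact sub_ne_zero.2 ht2y.2.symm
  have k30 : k3 ≠ 0 := by rw [← Ek3]; exact sub_ne_zero.2 hpq.2.symm
  -- B0 := B k1 κ ≠ 0
  have hB0 : B k1 κ ≠ 0 := by
    intro h0
    apply ht12
    rw [Et1, Et2]
    have e : x + k1 - (x + κ) = k1 - κ := by abel
    rw [e]
    simp only [map_sub, LinearMap.sub_apply]
    rw [hs κ k1, h0, nk1, nκ]; ring
  -- expansions of nullness
  have null_expand : ∀ (u v w : V) (a b : F), B u u = 0 → B v v = 0 → B w w = 0 →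
      B (u + a • w - b • v) (u + a • w - b • v) = 0 →
      a * B u w - b * B u v - a * b * B v w = 0 := by
    intro u v w a b hu hv hw h
    simp only [map_add, map_sub, map_smul, LinearMap.add_apply, LinearMap.sub_apply,
      LinearMap.smul_apply, smul_eq_mul] at h
    rw [hu, hv, hw, hs v u, hs w u, hs w v] at h
    have : (2 : F) * (a * B u w - b * B u v - a * b * B v w) = 0 := by linear_combination h
    rcases mul_eq_zero.1 this with h2 | h2
    · exact absurd h2 two_ne_zero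
    · exact h2
  have r2 := null_expand k1 κ κ' 1 1 nk1 nκ nκ' (by rw [← hk2def]; exact nk2)
  have r3 := null_expand k1 κ κ' τ σ nk1 nκ nκ' (by rw [← hk3def]; exact nk3)
  have rh := null_expand k1 κ κ' τg σs nk1 nκ nκ' (by rw [← hhdef]; exact nh)
  have hA : B k1 κ' = B k1 κ + B κ κ' := by linear_combination r2
  have hστ : σ ≠ τ := by
    intro h0
    rw [h0, hA] at r3
    have : τ * (1 - τ) * B κ κ' = 0 := by linear_combination r3
    rcases mul_eq_zero.1 this with h1 | h1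
    · rcases mul_eq_zero.1 h1 with h2 | h2
      · exact hτ0 h2
      · exact hτ1 (by linear_combination -h2)
    · exact hC h1
  -- rungs of the second grid are multiples of the rungs of the first
  have M : ∀ (e f w z : V), Lam B e f → Lam B w z → B (w - e) (f - e) = 0 →
      B (z - e) (f - e) = 0 → ∃ η : F, z - w = η • (f - e) ∧ η ≠ 0 := by
    intro e f w z hef hwz h1 h2
    have h3 : B (z - w) (f - e) = 0 := by
      have : z - w = (z - e) - (w - e) := by abel
      rw [this, LinearMap.map_sub₂, h1, h2, sub_zero]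
    obtain ⟨η, hη⟩ := hN _ _ (lam_symm B hwz).1 (lam_symm B hef).1 h3 (sub_ne_zero.2 hef.2.symm)
    refine ⟨η, hη, ?_⟩
    rintro rfl
    rw [zero_smul, sub_eq_zero] at hη
    exact hwz.2 hη.symm
  obtain ⟨η1, E1, hη1⟩ := M x t1 w1 z1 hxt1 hwz1 ow1 oz1
  obtain ⟨η2, E2, hη2⟩ := M t2 y w2 z2 ht2y hwz2 ow2 oz2
  obtain ⟨η3, E3, hη3⟩ := M p q w3 z3 hpq hwz3 ow3 oz3
  rw [← hk1def, ← hm1def] at E1
  rw [Ek2] at E2
  rw [Ek3] at E3
  have E2' : m1 + (1 : F) • δ - (1 : F) • γ = η2 • k2 := by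
    rw [← E2, Ez2, Ew2]; module
  have E3' : m1 + d • δ - b • γ = η3 • k3 := by
    rw [← E3, Ez3, Ew3, Ez1]; module
  have s2 := null_expand m1 γ δ 1 1 nm1 nγ nδ (by rw [E2']; simp [nk2])
  have s3 := null_expand m1 γ δ d b nm1 nγ nδ (by rw [E3']; simp [nk3])
  -- B γ δ ≠ 0
  have hC' : B γ δ ≠ 0 := by
    intro h0
    obtain ⟨α, hα⟩ := hN δ γ nδ nγ (by rw [hs]; exact h0) γ0
    rw [hα, map_smul, smul_eq_mul, map_smul, smul_eq_mul, nγ] at s2
    have s2' : (α - 1) * B m1 γ = 0 := by linear_combination s2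
    rcases mul_eq_zero.1 s2' with h1 | h1
    · -- α = 1
      have hα1 : α = 1 := by linear_combination h1
      rw [hα, hα1] at E2'
      have e : m1 = η2 • k2 := by rw [← E2']; module
      rw [E1] at e
      -- η1 k1 = η2 k2
      have e2 : k2 = (η1 / η2) • k1 := by
        rw [div_eq_inv_mul, mul_smul, e, smul_smul, inv_mul_cancel₀ hη2, one_smul]
      have e3 : κ' = κ + (η1 / η2 - 1) • k1 := by
        have : κ' = k2 - k1 + κ := by rw [hk2def]; module
        rw [this, e2]; module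
      have e4 := nκ'
      rw [e3] at e4
      simp only [map_add, map_smul, LinearMap.add_apply, LinearMap.smul_apply, smul_eq_mul] at e4
      rw [nκ, nk1, hs κ k1] at e4
      have e5 : (2 : F) * ((η1 / η2 - 1) * B k1 κ) = 0 := by linear_combination e4
      have e6 : η1 / η2 - 1 = 0 := by
        rcases mul_eq_zero.1 e5 with h2 | h2
        · exact absurd h2 two_ne_zero
        · rcases mul_eq_zero.1 h2 with h3 | h3
          · exact h3
          · exact absurd h3 hB0
      rw [e6, zero_smul, add_zero] at e3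
      rw [e3] at hC
      exact hC nκ
    · -- B m1 γ = 0
      rw [E1, map_smul, LinearMap.smul_apply, smul_eq_mul] at h1
      have h2 : B k1 γ = 0 := by
        rcases mul_eq_zero.1 h1 with h3 | h3
        · exact absurd h3 hη1
        · exact h3
      have h3 : B (s - x) k1 = 0 := by
        have : s - x = (w1 - x) + c • γ := by rw [Esw]; abel
        rw [this, map_add, LinearMap.add_apply, hk1def, ow1, ← hk1def, map_smul,
          LinearMap.smul_apply, hs γ k1, h2, smul_zero, add_zero]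
      have h4 : s - x = σs • κ := by rw [Es]; abel
      rw [h4, map_smul, LinearMap.smul_apply, smul_eq_mul, hs κ k1] at h3
      rcases mul_eq_zero.1 h3 with h5 | h5
      · exact hσs0 h5
      · exact hB0 h5
  have hA' : B m1 δ = B m1 γ + B γ δ := by linear_combination s2
  have hbd : b ≠ d := by
    intro h0
    rw [h0, hA'] at s3
    have : d * (1 - d) * B γ δ = 0 := by linear_combination s3
    rcases mul_eq_zero.1 this with h1 | h1
    · rcases mul_eq_zero.1 h1 with h2 | h2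
      · exact hd0 h2
      · exact hd1 (by linear_combination -h2)
    · exact hC' h1
  -- centres
  obtain ⟨a1, a2, v, hv, vκ, vk1, vall⟩ := grid_center B hs κ κ' k1 nκ nκ' nk1 hC
  obtain ⟨a1', a2', v', hv', vγ, vm1, vall'⟩ := grid_center B hs γ δ m1 nγ nδ nm1 hC'
  have vk2 : B (v - κ) k2 = 0 := by
    have := vall 1 1 (by rw [← hk2def]; exact nk2)
    rwa [← hk2def, one_smul] at this
  have vk3 : B (v - σ • κ) k3 = 0 := by
    have := vall σ τ (by rw [← hk3def]; exact nk3)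
    rwa [← hk3def] at this
  have vh : B (v - σs • κ) h = 0 := by
    have := vall σs τg (by rw [← hhdef]; exact nh)
    rwa [← hhdef] at this
  have vk2' : B (v' - γ) k2 = 0 := by
    have := vall' 1 1 (by rw [E2']; simp [nk2])
    rw [E2', one_smul, map_smul, smul_eq_mul] at this
    exact (mul_eq_zero.1 this).resolve_left hη2
  have vk3' : B (v' - b • γ) k3 = 0 := by
    have := vall' b d (by rw [E3']; simp [nk3])
    rw [E3', map_smul, smul_eq_mul] at this
    exact (mul_eq_zero.1 this).resolve_left hη3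
  have vk1' : B v' k1 = 0 := by
    rw [E1, map_smul, smul_eq_mul] at vm1
    exact (mul_eq_zero.1 vm1).resolve_left hη1
  -- D
  obtain ⟨D, hD⟩ : ∃ D, D = (x + v) - (w1 + v') := ⟨_, rfl⟩
  have D1 : B D k1 = 0 := by
    have : D = v - v' - (w1 - x) := by rw [hD]; abel
    rw [this, map_sub, map_sub, LinearMap.sub_apply, LinearMap.sub_apply, vk1, vk1', hk1def, ow1]
    ring
  have D2 : B D k2 = 0 := by
    have : D = (v - κ) - (v' - γ) - (w2 - t2) := by rw [hD, Ew2, Et2]; abel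
    rw [this, map_sub, map_sub, LinearMap.sub_apply, LinearMap.sub_apply, vk2, vk2', ← Ek2, ow2]
    ring
  have D3 : B D k3 = 0 := by
    have : D = (v - σ • κ) - (v' - b • γ) - (w3 - p) := by rw [hD, Ew3, Ep]; abel
    rw [this, map_sub, map_sub, LinearMap.sub_apply, LinearMap.sub_apply, vk3, vk3', ← Ek3, ow3]
    ring
  have hστ' : σ - τ ≠ 0 := sub_ne_zero.2 hστ
  have hbd' : b - d ≠ 0 := sub_ne_zero.2 hbd
  have eκ : κ = (σ - τ)⁻¹ • (τ • (k2 - k1) - (k3 - k1)) := by
    have : (σ - τ) • κ = τ • (k2 - k1) - (k3 - k1) := by rw [hk2def, hk3def]; module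
    rw [← this, smul_smul, inv_mul_cancel₀ hστ', one_smul]
  have Dκ : B D κ = 0 := by
    rw [eκ]
    simp only [map_sub, map_smul, D1, D2, D3]
    simp
  have Dκ' : B D κ' = 0 := by
    have : κ' = k2 - k1 + κ := by rw [hk2def]; module
    rw [this, map_add, map_sub, D1, D2, Dκ]; ring
  have eγ : γ = (b - d)⁻¹ • (d • (η2 • k2 - η1 • k1) - (η3 • k3 - η1 • k1)) := by
    have : (b - d) • γ = d • (η2 • k2 - η1 • k1) - (η3 • k3 - η1 • k1) := by
      rw [← E2', ← E3', ← E1]; module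
    rw [← this, smul_smul, inv_mul_cancel₀ hbd', one_smul]
  have Dγ : B D γ = 0 := by
    rw [eγ]
    simp only [map_sub, map_smul, D1, D2, D3]
    simp
  have Dm1 : B D m1 = 0 := by rw [E1, map_smul, D1, smul_zero]
  have Dδ : B D δ = 0 := by
    have : δ = η2 • k2 - m1 + γ := by rw [← E2']; module
    rw [this, map_add, map_sub, map_smul, D2, Dm1, Dγ]; simp
  have eD : D = -(σs • κ) + v + c • γ - v' := by
    have e1 : x = s - σs • κ := by rw [Es]; abel
    have e2 : w1 = s - c • γ := by rw [Esw]; abel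
    rw [hD, e1, e2]; abel
  have DD : B D D = 0 := by
    have e : B D D = B D (-(σs • κ) + v + c • γ - v') := by rw [← eD]
    rw [e, hv, hv']
    simp only [map_sub, map_add, map_neg, map_smul, D1, Dκ, Dκ', Dγ, Dδ, Dm1]
    simp
  have D0 : D = 0 := by
    obtain ⟨α, hα⟩ := hN D k1 DD nk1 D1 k10
    rw [hα, map_smul, LinearMap.smul_apply, smul_eq_mul] at Dκ
    rcases mul_eq_zero.1 Dκ with h1 | h1
    · rw [hα, h1, zero_smul]
    · exact absurd h1 hB0
  -- the two centres agree, so γ is orthogonal to v - σs κ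
  have hvv : v - σs • κ = v' - c • γ := by
    have : D = (v - σs • κ) - (v' - c • γ) := by rw [eD]; abel
    rw [D0] at this
    exact (sub_eq_zero.1 this.symm)
  have oγ : B (v - σs • κ) γ = 0 := by
    rw [hvv, map_sub, LinearMap.sub_apply, vγ, map_smul, LinearMap.smul_apply, nγ]; simp
  -- B κ h ≠ 0
  have hκh : B κ h ≠ 0 := by
    intro h0
    rw [hhdef] at h0
    simp only [map_add, map_sub, map_smul, smul_eq_mul] at h0
    rw [hs κ k1, nκ] at h0
    -- h0 : B k1 κ + τg * B κ κ' - σs * 0 = 0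
    rw [hA] at rh
    have e1 : τg * (B k1 κ + B κ κ') = 0 := by
      linear_combination rh + σs * h0
    have e2 : B k1 κ + B κ κ' = 0 := (mul_eq_zero.1 e1).resolve_left hτg0
    have e3 : (1 - τg) * B k1 κ = 0 := by linear_combination h0 - τg * e2
    rcases mul_eq_zero.1 e3 with h1 | h1
    · exact hτg1 (by linear_combination -h1)
    · exact hB0 h1
  -- express γ in terms of κ and h
  have eγ' : ∃ a b' c' : F, γ = a • k1 + b' • κ + c' • κ' := by
    refine ⟨(b - d)⁻¹ * (d * (η2 - η1) - (η3 - η1)), (b - d)⁻¹ * (d * (-η2) + η3 * σ),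
      (b - d)⁻¹ * (d * η2 - η3 * τ), ?_⟩
    conv_lhs => rw [eγ, hk2def, hk3def]
    module
  obtain ⟨a, b', c', hγ⟩ := eγ'
  have ok1 : B (v - σs • κ) k1 = -(σs * B k1 κ) := by
    rw [map_sub, LinearMap.sub_apply, vk1, map_smul, LinearMap.smul_apply, hs κ k1, smul_eq_mul]
    ring
  have oκ : B (v - σs • κ) κ = 0 := by
    rw [map_sub, LinearMap.sub_apply, vκ, map_smul, LinearMap.smul_apply, nκ]; simp
  have h1 : a * (-(σs * B k1 κ)) + c' * B (v - σs • κ) κ' = 0 := by
    have := oγ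
    rw [hγ, map_add, map_add, map_smul, map_smul, map_smul, ok1, oκ] at this
    simp only [smul_eq_mul] at this
    linear_combination this
  have h2 : -(σs * B k1 κ) + τg * B (v - σs • κ) κ' = 0 := by
    have := vh
    rw [hhdef, map_sub, map_add, map_smul, map_smul, ok1, oκ] at this
    simp only [smul_eq_mul] at this
    linear_combination this
  have h3 : B (v - σs • κ) κ' ≠ 0 := by
    intro h0
    rw [h0] at h2
    have : σs * B k1 κ = 0 := by linear_combination -h2
    rcases mul_eq_zero.1 this with h4 | h4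
    · exact hσs0 h4
    · exact hB0 h4
  have h4 : c' = a * τg := by
    have : (c' - a * τg) * B (v - σs • κ) κ' = 0 := by linear_combination h1 - a * h2
    rcases mul_eq_zero.1 this with h5 | h5
    · linear_combination h5
    · exact absurd h5 h3
  have hγh : γ = a • h + (b' + a * σs) • κ := by
    rw [hγ, h4, hhdef]; module
  have h5 : a * (b' + a * σs) = 0 := by
    have e := nγ
    rw [hγh] at e
    simp only [map_add, map_smul, LinearMap.add_apply, LinearMap.smul_apply, smul_eq_mul] at e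
    rw [nh, nκ, hs h κ] at e
    have e2 : (2 : F) * (a * (b' + a * σs)) * B κ h = 0 := by linear_combination e
    have e3 := (mul_eq_zero.1 e2).resolve_right hκh
    exact (mul_eq_zero.1 e3).resolve_left two_ne_zero
  have ew1 : w1 = s - c • γ := by rw [Esw]; abel
  rcases mul_eq_zero.1 h5 with h6 | h6
  · -- γ parallel to κ
    apply nw1
    have : w1 - x = (σs - c * b') • κ := by
      rw [ew1, hγh, h6, Es]; module
    rw [this]
    simp [nκ]
  · -- γ parallel to h
    apply nw1g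
    have : w1 - g = (-1 - c * a) • h := by
      have eg : g = s + h := by rw [← Eh]; abel
      rw [ew1, hγh, h6, eg]; module
    rw [this]
    simp [nh]

end Core

end Pool.Agent.Work.MP_446ff5_lc
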