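import Pool.Agent.Work.MP_446ff5_lc.Core

/-!
The Minkowski form on `F^{m+1}` over an ordered field.
-/

namespace Pool.Agent.Work.MP_446ff5_lc

variable {F : Type*} [Field F] [LinearOrder F] [IsStrictOrderedRing F] {m : ℕ}

/-- The Minkowski bilinear form; coordinate `0` is time. -/
def mink (F : Type*) [Field F] (m : ℕ) :
    (Fin (m + 1) → F) →ₗ[F] (Fin (m + 1) → F) →ₗ[F] F :=
  LinearMap.mk₂ F (fun u v => u 0 * v 0 - ∑ i : Fin m, u i.succ * v i.succ)
    (by
      intro a b c
      simp only [Pi.add_apply, add_mul, Finset.sum_add_distrib]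
      ring)
    (by
      intro r a b
      simp only [Pi.smul_apply, smul_eq_mul, mul_sub, Finset.mul_sum, mul_assoc])
    (by
      intro a b c
      simp only [Pi.add_apply, mul_add, Finset.sum_add_distrib]
      ring)
    (by
      intro r a b
      simp only [Pi.smul_apply, smul_eq_mul, mul_sub, Finset.mul_sum]
      congr 1
      · ring
      · apply Finset.sum_congr rfl
        intro i _
        ring)

omit [LinearOrder F] [IsStrictOrderedRing F] in
lemma mink_apply (u v : Fin (m + 1) → F) :
    mink F m u v = u 0 * v 0 - ∑ i : Fin m, u i.succ * v i.succ := rfl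

omit [LinearOrder F] [IsStrictOrderedRing F] in
lemma mink_symm (u v : Fin (m + 1) → F) : mink F m u v = mink F m v u := by
  rw [mink_apply, mink_apply]
  congr 1
  · ring
  · apply Finset.sum_congr rfl
    intro i _
    ring

lemma cs (u v : Fin (m + 1) → F) : (∑ i : Fin m, u i.succ * v i.succ) ^ 2
    ≤ (∑ i : Fin m, u i.succ ^ 2) * ∑ i : Fin m, v i.succ ^ 2 :=
  Finset.sum_mul_sq_le_sq_mul_sq _ _ _

omit [LinearOrder F] [IsStrictOrderedRing F] in
lemma mink_self (u : Fin (m + 1) → F) : mink F m u u = u 0 ^ 2 - ∑ i : Fin m, u i.succ ^ 2 := by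
  rw [mink_apply]
  congr 1
  · ring
  · apply Finset.sum_congr rfl
    intro i _
    ring

/-- A null vector with vanishing time coordinate vanishes. -/
lemma eq_zero_of_time (u : Fin (m + 1) → F) (h : 0 ≤ mink F m u u) (h0 : u 0 = 0) : u = 0 := by
  rw [mink_self, h0] at h
  have h1 : ∑ i : Fin m, u i.succ ^ 2 = 0 := by
    apply le_antisymm
    · linarith [h]
    · exact Finset.sum_nonneg fun i _ => sq_nonneg _
  have h2 := (Finset.sum_eq_zero_iff_of_nonneg (fun i _ => sq_nonneg _)).1 h1
  funext j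
  refine Fin.cases ?_ ?_ j
  · exact h0
  · intro i
    have := h2 i (Finset.mem_univ i)
    exact pow_eq_zero_iff (two_ne_zero) |>.1 this

/-- Orthogonal null vectors are proportional. -/
lemma null_prop (u v : Fin (m + 1) → F) (hu : mink F m u u = 0) (hv : mink F m v v = 0)
    (huv : mink F m u v = 0) (hv0 : v ≠ 0) : ∃ a : F, u = a • v := by
  have hv00 : v 0 ≠ 0 := fun h => hv0 (eq_zero_of_time v hv.ge h)
  refine ⟨u 0 / v 0, ?_⟩
  have hz : u - (u 0 / v 0) • v = 0 := by
    apply eq_zero_of_time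
    · have : mink F m (u - (u 0 / v 0) • v) (u - (u 0 / v 0) • v) = 0 := by
        simp only [map_sub, map_smul, LinearMap.sub_apply, LinearMap.smul_apply, smul_eq_mul]
        rw [hu, hv, mink_symm v u, huv]
        ring
      rw [this]
    · simp only [Pi.sub_apply, Pi.smul_apply, smul_eq_mul]
      field_simp
      ring
  exact sub_eq_zero.1 hz

/-- A vector orthogonal to a nonzero null vector is not timelike. -/
lemma orth_null (u k : Fin (m + 1) → F) (hk : mink F m k k = 0) (hk0 : k ≠ 0)
    (huk : mink F m u k = 0) : mink F m u u ≤ 0 := by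
  have hk00 : k 0 ≠ 0 := fun h => hk0 (eq_zero_of_time k hk.ge h)
  rw [mink_self] at hk ⊢
  rw [mink_apply] at huk
  have h1 := cs u k
  have h2 : ∑ i : Fin m, u i.succ * k i.succ = u 0 * k 0 := by linarith
  have h3 : ∑ i : Fin m, k i.succ ^ 2 = k 0 ^ 2 := by linarith
  rw [h2, h3] at h1
  have h4 : 0 < k 0 ^ 2 := by positivity
  by_contra hcon
  push Not at hcon
  have h5 := mul_pos hcon h4
  nlinarith

/-- A nonzero vector orthogonal to a timelike vector is spacelike. -/
lemma orth_time (u d : Fin (m + 1) → F) (hd : 0 < mink F m d d) (hu0 : u ≠ 0)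
    (hud : mink F m u d = 0) : mink F m u u < 0 := by
  by_contra hcon
  push Not at hcon
  have hu00 : u 0 ≠ 0 := fun h => hu0 (eq_zero_of_time u hcon h)
  rw [mink_self] at hd hcon
  rw [mink_apply] at hud
  have h1 := cs u d
  have h2 : ∑ i : Fin m, u i.succ * d i.succ = u 0 * d 0 := by linarith
  rw [h2] at h1
  have h3 : 0 ≤ ∑ i : Fin m, d i.succ ^ 2 := Finset.sum_nonneg fun i _ => sq_nonneg _
  have h4 : 0 < u 0 ^ 2 := by positivity
  have h5 : (∑ i : Fin m, u i.succ ^ 2) * (∑ i : Fin m, d i.succ ^ 2)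
      ≤ u 0 ^ 2 * ∑ i : Fin m, d i.succ ^ 2 := mul_le_mul_of_nonneg_right (by linarith) h3
  have h6 : u 0 ^ 2 * ∑ i : Fin m, d i.succ ^ 2 < u 0 ^ 2 * d 0 ^ 2 :=
    mul_lt_mul_of_pos_left (by linarith) h4
  nlinarith

/-- Square roots exist for nonnegative elements. -/
def Euclid (F : Type*) [Field F] [LinearOrder F] : Prop := ∀ a : F, 0 ≤ a → ∃ b : F, b ^ 2 = a

/-- Rescaling a spacelike vector. -/
lemma rescale (hE : Euclid F) (e : Fin (m + 1) → F) (he : mink F m e e < 0) (M : F) (hM : 0 < M) :
    ∃ r : F, r ≠ 0 ∧ mink F m (r • e) (r • e) = -M := by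
  obtain ⟨r, hr⟩ := hE (M / (-mink F m e e)) (by
    apply div_nonneg hM.le
    linarith)
  refine ⟨r, ?_, ?_⟩
  · rintro rfl
    have : M / (-mink F m e e) = 0 := by rw [← hr]; ring
    rcases div_eq_zero_iff.1 this with h | h <;> linarith
  · simp only [map_smul, LinearMap.smul_apply, smul_eq_mul]
    have : r * (r * mink F m e e) = r ^ 2 * mink F m e e := by ring
    rw [this, hr, div_mul_eq_mul_div, div_eq_iff (neg_ne_zero.2 he.ne)]
    ring

/-- Two spacelike vectors orthogonal to a timelike vector and to each other. -/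
lemma exists_frame (hE : Euclid F) (hm : 2 ≤ m) (d : Fin (m + 1) → F)
    (hd : 0 < mink F m d d) : ∃ e f : Fin (m + 1) → F, mink F m e d = 0 ∧ mink F m f d = 0 ∧
      mink F m f e = 0 ∧ mink F m e e = -mink F m d d ∧ mink F m f f = -mink F m d d := by
  set M := mink F m d d with hM
  have hd0 : d 0 ≠ 0 := by
    intro h
    have : d = 0 := eq_zero_of_time d hd.le h
    rw [this] at hM
    simp at hM
    linarith
  -- two spatial unit vectors
  set i1 : Fin (m + 1) := (⟨0, by omega⟩ : Fin m).succ with hi1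
  set i2 : Fin (m + 1) := (⟨1, by omega⟩ : Fin m).succ with hi2
  have h12 : i1 ≠ i2 := by
    rw [hi1, hi2]
    intro h
    have := Fin.succ_injective _ h
    simp at this
  have h10 : i1 ≠ 0 := Fin.succ_ne_zero _
  have h20 : i2 ≠ 0 := Fin.succ_ne_zero _
  obtain ⟨e', he'⟩ : ∃ e' : Fin (m + 1) → F,
      e' = Pi.single i1 1 - (mink F m (Pi.single i1 1) d / M) • d := ⟨_, rfl⟩
  have he'd : mink F m e' d = 0 := by
    rw [he', LinearMap.map_sub₂, LinearMap.map_smul₂, smul_eq_mul, ← hM]
    field_simp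
    ring
  have he'0 : e' ≠ 0 := by
    intro h
    have h0 := congrFun h 0
    have h1 := congrFun h i1
    rw [he'] at h0 h1
    simp only [Pi.sub_apply, Pi.smul_apply, Pi.single_apply, h10.symm, if_true, if_false,
      smul_eq_mul, Pi.zero_apply] at h0 h1
    set c := mink F m (Pi.single i1 1) d / M
    have h3 : c * d 0 = 0 := by linear_combination -h0
    rcases mul_eq_zero.1 h3 with h4 | h4
    · have : (1 : F) = 0 := by linear_combination h1 + h4 * d i1
      exact one_ne_zero this
    · exact hd0 h4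
  have he'n := orth_time e' d hd he'0 he'd
  obtain ⟨f', hf'⟩ : ∃ f' : Fin (m + 1) → F,
      f' = Pi.single i2 1 - (mink F m (Pi.single i2 1) d / M) • d
        - (mink F m (Pi.single i2 1) e' / mink F m e' e') • e' := ⟨_, rfl⟩
  have hf'd : mink F m f' d = 0 := by
    rw [hf', LinearMap.map_sub₂, LinearMap.map_sub₂, LinearMap.map_smul₂, LinearMap.map_smul₂,
      smul_eq_mul, smul_eq_mul, ← hM, he'd]
    field_simp
    ring
  have hf'e : mink F m f' e' = 0 := by
    rw [hf', LinearMap.map_sub₂, LinearMap.map_sub₂, LinearMap.map_smul₂, LinearMap.map_smul₂,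
      smul_eq_mul, smul_eq_mul, mink_symm d e', he'd]
    have := he'n.ne
    field_simp
    ring
  have hf'0 : f' ≠ 0 := by
    intro h
    rw [he'] at hf'
    -- f' = e_{i2} - a d - b (e_{i1} - c d)
    set a := mink F m (Pi.single i2 1) d / M
    set b := mink F m (Pi.single i2 1) (Pi.single i1 1 - (mink F m (Pi.single i1 1) d / M) • d)
      / mink F m (Pi.single i1 1 - (mink F m (Pi.single i1 1) d / M) • d)
        (Pi.single i1 1 - (mink F m (Pi.single i1 1) d / M) • d)
    set c := mink F m (Pi.single i1 1) d / M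
    rw [hf'] at h
    have h0 := congrFun h 0
    have h2 := congrFun h i2
    simp only [Pi.sub_apply, Pi.smul_apply, Pi.single_apply, h10.symm, h20.symm, h12,
      h12.symm, if_true, if_false, smul_eq_mul, Pi.zero_apply] at h0 h2
    have h3 : (a - b * c) * d 0 = 0 := by linear_combination -h0
    rcases mul_eq_zero.1 h3 with h4 | h4
    · have : (1 : F) = 0 := by linear_combination h2 + h4 * d i2
      exact one_ne_zero this
    · exact hd0 h4
  have hf'n := orth_time f' d hd hf'0 hf'd
  obtain ⟨r, hr0, hr⟩ := rescale hE e' he'n M hd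
  obtain ⟨r', hr0', hr'⟩ := rescale hE f' hf'n M hd
  refine ⟨r • e', r' • f', ?_, ?_, ?_, hr, hr'⟩
  · rw [LinearMap.map_smul₂, he'd, smul_zero]
  · rw [LinearMap.map_smul₂, hf'd, smul_zero]
  · rw [LinearMap.map_smul₂, map_smul, hf'e, smul_zero, smul_zero]

end Pool.Agent.Work.MP_446ff5_lc
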